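import Pool.Agent.LE.StmtsQH

set_option autoImplicit false

open MeasureTheory Set


namespace Pool.Agent.LE.QF.H8

/-- Gamma integral with its integrability -/
theorem kh_gam {a w : ℝ} (ha : 0 < a) (hw : 0 < w) :
    IntegrableOn (fun t : ℝ => t ^ (a - 1) * Real.exp (-(w * t))) (Ioi 0) ∧
      ∫ t in Ioi (0 : ℝ), t ^ (a - 1) * Real.exp (-(w * t)) = (1 / w) ^ a * Real.Gamma a := by
  have h := Real.integral_rpow_mul_exp_neg_mul_Ioi ha hw
  refine ⟨?_, h⟩
  by_contra hn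
  have h0 : ∫ t in Ioi (0 : ℝ), t ^ (a - 1) * Real.exp (-(w * t)) = 0 := integral_undef hn
  rw [h] at h0
  have : 0 < (1 / w) ^ a * Real.Gamma a :=
    mul_pos (Real.rpow_pos_of_pos (by positivity) _) (Real.Gamma_pos_of_pos ha)
  exact this.ne' h0

theorem kh_exp {w : ℝ} (hw : 0 < w) :
    IntegrableOn (fun t : ℝ => Real.exp (-(w * t))) (Ioi 0) ∧
      ∫ t in Ioi (0 : ℝ), Real.exp (-(w * t)) = 1 / w := by
  have h1 : (fun t : ℝ => Real.exp (-(w * t))) = fun t => Real.exp (-w * t) := by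
    funext t
    rw [neg_mul]
  rw [h1]
  refine ⟨integrableOn_exp_mul_Ioi (by linarith) 0, ?_⟩
  rw [integral_exp_mul_Ioi (by linarith : -w < 0) 0]
  simp

/-- the logarithm -/
theorem kh_log {w t : ℝ} (hw : 0 < w) (hw2 : w ≤ 1 / 2) :
    IntegrableOn (fun s : ℝ => Real.exp (-(w * s)) * (1 + |t - s|)⁻¹) (Ioi 0) ∧
      ∫ s in Ioi (0 : ℝ), Real.exp (-(w * s)) * (1 + |t - s|)⁻¹ ≤ 3 * (1 + Real.log (1 / w)) := by
  have hle1 : ∀ s : ℝ, (1 + |t - s|)⁻¹ ≤ 1 := fun s => inv_le_one_of_one_le₀ (by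
    have := abs_nonneg (t - s)
    linarith)
  have hnn : ∀ s : ℝ, 0 ≤ (1 + |t - s|)⁻¹ := fun s => by positivity
  have hcont : Continuous fun s : ℝ => Real.exp (-(w * s)) * (1 + |t - s|)⁻¹ := by
    refine Continuous.mul (by fun_prop) (Continuous.inv₀ (by fun_prop) fun s => ?_)
    have := abs_nonneg (t - s)
    linarith
  have hint : IntegrableOn (fun s : ℝ => Real.exp (-(w * s)) * (1 + |t - s|)⁻¹) (Ioi 0) := by
    refine Integrable.mono' (kh_exp hw).1 hcont.aestronglyMeasurable ?_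
    refine Filter.Eventually.of_forall fun s => ?_
    rw [Real.norm_of_nonneg (mul_nonneg (Real.exp_nonneg _) (hnn s))]
    exact mul_le_of_le_one_right (Real.exp_nonneg _) (hle1 s)
  refine ⟨hint, ?_⟩
  -- the interval integral
  have hw' : 0 < 1 / w := by positivity
  have hc1 : Continuous fun s : ℝ => (1 + |t - s|)⁻¹ := by
    refine Continuous.inv₀ (by fun_prop) fun s => ?_
    have := abs_nonneg (t - s)
    linarith
  have hI1 : ∫ s in (t - 1 / w)..t, (1 + |t - s|)⁻¹ = Real.log (1 + 1 / w) := by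
    have e : ∫ s in (t - 1 / w)..t, (1 + |t - s|)⁻¹ =
        (-Real.log (1 + (t - t))) - (-Real.log (1 + (t - (t - 1 / w)))) := by
      refine intervalIntegral.integral_eq_sub_of_hasDerivAt (f := fun s => -Real.log (1 + (t - s)))
        (fun s hs => ?_) (hc1.intervalIntegrable _ _)
      rw [uIcc_of_le (by linarith)] at hs
      have h1 : 0 ≤ t - s := by linarith [hs.2]
      have h2 : HasDerivAt (fun s : ℝ => 1 + (t - s)) (-1) s := by
        have := (hasDerivAt_id s).const_sub t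
        exact (this.const_add 1)
      have h3 := (h2.log (by positivity)).neg
      rw [abs_of_nonneg h1]
      refine h3.congr_deriv ?_
      field_simp
    rw [e]
    simp
  have hI2 : ∫ s in t..(t + 1 / w), (1 + |t - s|)⁻¹ = Real.log (1 + 1 / w) := by
    have e : ∫ s in t..(t + 1 / w), (1 + |t - s|)⁻¹ =
        (Real.log (1 + (t + 1 / w - t))) - (Real.log (1 + (t - t))) := by
      refine intervalIntegral.integral_eq_sub_of_hasDerivAt (f := fun s => Real.log (1 + (s - t)))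
        (fun s hs => ?_) (hc1.intervalIntegrable _ _)
      rw [uIcc_of_le (by linarith)] at hs
      have h1 : 0 ≤ s - t := by linarith [hs.1]
      have h2 : HasDerivAt (fun s : ℝ => 1 + (s - t)) 1 s := by
        have := (hasDerivAt_id s).sub_const t
        exact (this.const_add 1)
      have h3 := h2.log (by positivity)
      rw [abs_sub_comm, abs_of_nonneg h1]
      refine h3.congr_deriv ?_
      field_simp
    rw [e]
    simp
  have hI : ∫ s in (t - 1 / w)..(t + 1 / w), (1 + |t - s|)⁻¹ = 2 * Real.log (1 + 1 / w) := by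
    rw [← intervalIntegral.integral_add_adjacent_intervals (hc1.intervalIntegrable _ _)
      (hc1.intervalIntegrable t _), hI1, hI2]
    ring
  have hII : ∫ s in Ioc (t - 1 / w) (t + 1 / w), (1 + |t - s|)⁻¹ = 2 * Real.log (1 + 1 / w) := by
    rw [← hI, intervalIntegral.integral_of_le (by linarith)]
  -- the pointwise bound
  have hind : Integrable (fun s : ℝ => (Ioc (t - 1 / w) (t + 1 / w)).indicator
      (fun s => (1 + |t - s|)⁻¹) s) := by
    rw [integrable_indicator_iff measurableSet_Ioc]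
    exact (hc1.integrableOn_Icc (a := t - 1 / w) (b := t + 1 / w)).mono_set Ioc_subset_Icc_self
  have hb : ∫ s in Ioi (0 : ℝ), Real.exp (-(w * s)) * (1 + |t - s|)⁻¹ ≤
      ∫ s in Ioi (0 : ℝ), ((Ioc (t - 1 / w) (t + 1 / w)).indicator
        (fun s => (1 + |t - s|)⁻¹) s + w * Real.exp (-(w * s))) := by
    refine setIntegral_mono_on hint (hind.integrableOn.add ((kh_exp hw).1.const_mul w))
      measurableSet_Ioi fun s hs => ?_
    have hs0 : (0 : ℝ) < s := hs
    have hexp : Real.exp (-(w * s)) ≤ 1 := Real.exp_le_one_iff.mpr (by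
      have := mul_pos hw hs0
      linarith)
    by_cases hmem : s ∈ Ioc (t - 1 / w) (t + 1 / w)
    · rw [indicator_of_mem hmem]
      have h1 : Real.exp (-(w * s)) * (1 + |t - s|)⁻¹ ≤ (1 + |t - s|)⁻¹ :=
        mul_le_of_le_one_left (hnn s) hexp
      have h2 : 0 ≤ w * Real.exp (-(w * s)) := by positivity
      linarith
    · rw [indicator_of_notMem hmem, zero_add, mul_comm]
      refine mul_le_mul_of_nonneg_right ?_ (Real.exp_nonneg _)
      have h3 : 1 / w ≤ |t - s| := by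
        rw [mem_Ioc, not_and_or, not_lt, not_le] at hmem
        rcases hmem with h | h
        · rw [le_abs]
          left
          linarith
        · rw [le_abs]
          right
          linarith
      rw [inv_le_comm₀ (by positivity) hw, ← one_div]
      linarith
  refine hb.trans ?_
  rw [integral_add hind.integrableOn ((kh_exp hw).1.const_mul w)]
  have h4 : ∫ s in Ioi (0 : ℝ), w * Real.exp (-(w * s)) = 1 := by
    rw [integral_const_mul, (kh_exp hw).2]
    field_simp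
  have h5 : ∫ s in Ioi (0 : ℝ), (Ioc (t - 1 / w) (t + 1 / w)).indicator
      (fun s => (1 + |t - s|)⁻¹) s ≤ 2 * Real.log (1 + 1 / w) := by
    rw [← hII, ← integral_indicator measurableSet_Ioc]
    refine setIntegral_le_integral hind (Filter.Eventually.of_forall fun s => ?_)
    exact indicator_nonneg (fun s _ => hnn s) s
  have h6 : Real.log (1 + 1 / w) ≤ 1 + Real.log (1 / w) := by
    have h7 : 1 + 1 / w ≤ 2 * (1 / w) := by
      have : 1 ≤ 1 / w := by
        rw [le_div_iff₀ hw]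
        linarith
      linarith
    have h8 := Real.log_le_log (by positivity) h7
    rw [Real.log_mul (by norm_num) (by positivity)] at h8
    have h9 := Real.log_two_lt_d9
    linarith
  have h10 : 0 ≤ Real.log (1 / w) := Real.log_nonneg (by
    rw [le_div_iff₀ hw]
    linarith)
  rw [h4]
  linarith

/-- the outer integral -/
theorem kh_out {w σ : ℝ} (hw : 0 < w) (hσ : 0 ≤ σ) :
    IntegrableOn (fun t : ℝ => Real.exp (-(w * t)) * (1 + σ * t) ^ (-(1 / 2 : ℝ))) (Ioi 0) ∧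
      ∫ t in Ioi (0 : ℝ), Real.exp (-(w * t)) * (1 + σ * t) ^ (-(1 / 2 : ℝ)) ≤
        3 / w * Real.sqrt (w / (w + σ)) := by
  have hle1 : ∀ t ∈ Ioi (0 : ℝ), (1 + σ * t) ^ (-(1 / 2 : ℝ)) ≤ 1 := fun t ht => by
    have h1 : 1 ≤ 1 + σ * t := by
      have := mul_nonneg hσ (le_of_lt (show (0 : ℝ) < t from ht))
      linarith
    exact Real.rpow_le_one_of_one_le_of_nonpos h1 (by norm_num)
  have hnn : ∀ t ∈ Ioi (0 : ℝ), 0 ≤ (1 + σ * t) ^ (-(1 / 2 : ℝ)) := fun t ht => by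
    have := mul_nonneg hσ (le_of_lt (show (0 : ℝ) < t from ht))
    exact Real.rpow_nonneg (by linarith) _
  have hint : IntegrableOn (fun t : ℝ => Real.exp (-(w * t)) * (1 + σ * t) ^ (-(1 / 2 : ℝ)))
      (Ioi 0) := by
    refine Integrable.mono' (kh_exp hw).1 ?_ ?_
    · refine Measurable.aestronglyMeasurable ?_
      fun_prop
    · refine (ae_restrict_mem measurableSet_Ioi).mono fun t ht => ?_
      rw [Real.norm_of_nonneg (mul_nonneg (Real.exp_nonneg _) (hnn t ht))]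
      exact mul_le_of_le_one_right (Real.exp_nonneg _) (hle1 t ht)
  refine ⟨hint, ?_⟩
  rcases le_total σ w with h | h
  · have h1 : ∫ t in Ioi (0 : ℝ), Real.exp (-(w * t)) * (1 + σ * t) ^ (-(1 / 2 : ℝ)) ≤ 1 / w := by
      rw [← (kh_exp hw).2]
      refine setIntegral_mono_on hint (kh_exp hw).1 measurableSet_Ioi fun t ht => ?_
      exact mul_le_of_le_one_right (Real.exp_nonneg _) (hle1 t ht)
    refine h1.trans ?_
    have h2 : (1 / 3 : ℝ) ≤ Real.sqrt (w / (w + σ)) := by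
      refine Real.le_sqrt_of_sq_le ?_
      rw [le_div_iff₀ (by linarith)]
      nlinarith
    have h3 : 3 / w * (1 / 3) ≤ 3 / w * Real.sqrt (w / (w + σ)) :=
      mul_le_mul_of_nonneg_left h2 (by positivity)
    refine le_trans (le_of_eq ?_) h3
    field_simp
  · have hσ' : 0 < σ := lt_of_lt_of_le hw h
    obtain ⟨hg1, hg2⟩ := kh_gam (a := 1 / 2) (by norm_num) hw
    have h1 : ∫ t in Ioi (0 : ℝ), Real.exp (-(w * t)) * (1 + σ * t) ^ (-(1 / 2 : ℝ)) ≤
        ∫ t in Ioi (0 : ℝ), σ ^ (-(1 / 2 : ℝ)) * (t ^ ((1 / 2 : ℝ) - 1) * Real.exp (-(w * t))) := by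
      refine setIntegral_mono_on hint (hg1.const_mul _) measurableSet_Ioi fun t ht => ?_
      have ht0 : (0 : ℝ) < t := ht
      have h2 : (1 + σ * t) ^ (-(1 / 2 : ℝ)) ≤ (σ * t) ^ (-(1 / 2 : ℝ)) :=
        Real.rpow_le_rpow_of_nonpos (by positivity) (by linarith) (by norm_num)
      rw [Real.mul_rpow hσ'.le ht0.le] at h2
      have h3 : (1 / 2 : ℝ) - 1 = -(1 / 2) := by norm_num
      rw [h3]
      calc Real.exp (-(w * t)) * (1 + σ * t) ^ (-(1 / 2 : ℝ)) ≤
          Real.exp (-(w * t)) * (σ ^ (-(1 / 2 : ℝ)) * t ^ (-(1 / 2 : ℝ))) :=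
            mul_le_mul_of_nonneg_left h2 (Real.exp_nonneg _)
        _ = _ := by ring
    refine h1.trans ?_
    rw [integral_const_mul, hg2, Real.Gamma_one_half_eq]
    have h4 : σ ^ (-(1 / 2 : ℝ)) * ((1 / w) ^ (1 / 2 : ℝ) * Real.sqrt Real.pi) =
        Real.sqrt (Real.pi / (σ * w)) := by
      rw [← Real.sqrt_eq_rpow, Real.rpow_neg hσ'.le, ← Real.sqrt_eq_rpow, ← Real.sqrt_inv,
        ← Real.sqrt_mul (by positivity), ← Real.sqrt_mul (by positivity)]
      congr 1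
      field_simp
    have h5 : 3 / w * Real.sqrt (w / (w + σ)) = Real.sqrt ((3 / w) ^ 2 * (w / (w + σ))) := by
      rw [Real.sqrt_mul (by positivity), Real.sqrt_sq (by positivity)]
    rw [h4, h5]
    refine Real.sqrt_le_sqrt ?_
    have h6 : (3 / w) ^ 2 * (w / (w + σ)) = 9 / (w * (w + σ)) := by
      field_simp
      norm_num
    rw [h6, div_le_div_iff₀ (by positivity) (by positivity)]
    have h7 := Real.pi_lt_d2
    have h8 : Real.pi * (w * (w + σ)) ≤ 3.15 * (w * (w + σ)) :=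
      mul_le_mul_of_nonneg_right h7.le (by positivity)
    have h9 : w * (w + σ) ≤ w * (2 * σ) := mul_le_mul_of_nonneg_left (by linarith) hw.le
    have h10 : 0 < w * σ := by positivity
    nlinarith

/-- pointwise -/
theorem kh_pw {t s σ ρ : ℝ} (ht : 0 < t) (hs : 0 < s) (hσ : 0 ≤ σ) (hρ : 0 ≤ ρ)
    (hρ2 : ρ ^ 2 = (t - s) ^ 2 + 4 * t * s * σ ^ 2) :
    (1 + |t - s|)⁻¹ * (1 + ρ) ^ (-(1 / 2 : ℝ)) ≤
      (1 + σ * t) ^ (-(1 / 2 : ℝ)) * (1 + |t - s|)⁻¹ +
        t ^ ((1 / 4 : ℝ) - 1) * s ^ ((1 / 4 : ℝ) - 1) := by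
  have hts := mul_pos ht hs
  have hσt := mul_nonneg hσ ht.le
  have habs := abs_nonneg (t - s)
  have hx : 0 < 1 + |t - s| := by linarith
  have hA : 0 ≤ (1 + σ * t) ^ (-(1 / 2 : ℝ)) * (1 + |t - s|)⁻¹ := by positivity
  have hB : 0 ≤ t ^ ((1 / 4 : ℝ) - 1) * s ^ ((1 / 4 : ℝ) - 1) := by positivity
  rcases le_or_gt |t - s| ((t + s) / 2) with h | h
  · have h1 : t ≤ 3 * s := by
      have := le_abs_self (t - s)
      linarith
    have h2 : σ * t ≤ ρ := by
      by_contra hn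
      push Not at hn
      have h3 : ρ ^ 2 < (σ * t) ^ 2 := by
        have := mul_self_lt_mul_self hρ hn
        nlinarith
      have h4 : t * t ≤ 3 * (t * s) := by nlinarith
      have h5 : σ ^ 2 * (t * t) ≤ σ ^ 2 * (3 * (t * s)) :=
        mul_le_mul_of_nonneg_left h4 (sq_nonneg σ)
      have h6 : 0 ≤ σ ^ 2 * (t * s) := by positivity
      nlinarith [sq_nonneg (t - s)]
    have h3 : (1 + ρ) ^ (-(1 / 2 : ℝ)) ≤ (1 + σ * t) ^ (-(1 / 2 : ℝ)) :=
      Real.rpow_le_rpow_of_nonpos (by linarith) (by linarith) (by norm_num)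
    have h4 : (1 + |t - s|)⁻¹ * (1 + ρ) ^ (-(1 / 2 : ℝ)) ≤
        (1 + |t - s|)⁻¹ * (1 + σ * t) ^ (-(1 / 2 : ℝ)) :=
      mul_le_mul_of_nonneg_left h3 (by positivity)
    rw [mul_comm ((1 + |t - s|)⁻¹) ((1 + σ * t) ^ (-(1 / 2 : ℝ)))] at h4
    linarith
  · have h1 : |t - s| ≤ ρ := by
      refine abs_le_of_sq_le_sq ?_ hρ
      rw [hρ2]
      have : 0 ≤ 4 * t * s * σ ^ 2 := by positivity
      linarith
    have h2 : (1 + ρ) ^ (-(1 / 2 : ℝ)) ≤ (1 + |t - s|) ^ (-(1 / 2 : ℝ)) :=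
      Real.rpow_le_rpow_of_nonpos hx (by linarith) (by norm_num)
    have h3 : Real.sqrt (t * s) ≤ 1 + |t - s| := by
      rw [Real.sqrt_le_left hx.le]
      have h4 : t * s ≤ ((t + s) / 2) ^ 2 := by nlinarith [sq_nonneg (t - s)]
      have h5 : ((t + s) / 2) ^ 2 ≤ (1 + |t - s|) ^ 2 :=
        pow_le_pow_left₀ (by linarith) (by linarith) 2
      linarith
    have h4 : (1 + |t - s|) ^ (-(3 / 2 : ℝ)) ≤ (Real.sqrt (t * s)) ^ (-(3 / 2 : ℝ)) :=
      Real.rpow_le_rpow_of_nonpos (Real.sqrt_pos.mpr hts) h3 (by norm_num)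
    have h5 : (Real.sqrt (t * s)) ^ (-(3 / 2 : ℝ)) =
        t ^ ((1 / 4 : ℝ) - 1) * s ^ ((1 / 4 : ℝ) - 1) := by
      rw [Real.sqrt_eq_rpow, ← Real.rpow_mul hts.le, Real.mul_rpow ht.le hs.le]
      norm_num
    have h6 : (1 + |t - s|)⁻¹ * (1 + |t - s|) ^ (-(1 / 2 : ℝ)) =
        (1 + |t - s|) ^ (-(3 / 2 : ℝ)) := by
      rw [← Real.rpow_neg_one, ← Real.rpow_add hx]
      norm_num
    have h7 : (1 + |t - s|)⁻¹ * (1 + ρ) ^ (-(1 / 2 : ℝ)) ≤
        (1 + |t - s|)⁻¹ * (1 + |t - s|) ^ (-(1 / 2 : ℝ)) :=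
      mul_le_mul_of_nonneg_left h2 (by positivity)
    rw [h6] at h7
    rw [h5] at h4
    linarith

/-- the double integral -/
theorem kh_two {K : Type} [Fintype K] (A B : K → ℂ) (hA : ∀ k, (A k).re < 0)
    (hB : ∀ k, (B k).re < 0) :
    ∑ k, (A k)⁻¹ * (B k)⁻¹ = ∫ t in Ioi (0 : ℝ), ∫ s in Ioi (0 : ℝ),
      ∑ k, Complex.exp (A k * t) * Complex.exp (B k * s) := by
  have h1 : ∀ t : ℝ, ∫ s in Ioi (0 : ℝ), ∑ k, Complex.exp (A k * t) * Complex.exp (B k * s) =
      ∑ k, Complex.exp (A k * t) * (-(B k)⁻¹) := by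
    intro t
    rw [integral_finsetSum _ fun k _ =>
      (integrableOn_exp_mul_complex_Ioi (hB k) 0).const_mul _]
    refine Finset.sum_congr rfl fun k _ => ?_
    rw [integral_const_mul, integral_exp_mul_complex_Ioi (hB k) 0]
    congr 1
    simp [neg_div]
  simp_rw [h1]
  rw [integral_finsetSum _ fun k _ =>
      (integrableOn_exp_mul_complex_Ioi (hA k) 0).mul_const _]
  refine Finset.sum_congr rfl fun k _ => ?_
  rw [integral_mul_const, integral_exp_mul_complex_Ioi (hA k) 0]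
  simp [neg_div]

/-- the bound of a double integral -/
theorem kh_main {w σ c m : ℝ} (F : ℝ → ℝ → ℂ) (hw : 0 < w) (hw2 : w ≤ 1 / 2) (hσ : 0 ≤ σ)
    (hσ1 : σ ≤ 1) (hc : 0 ≤ c) (hm : 300 / w ^ 2 ≤ m)
    (hF : ∀ t s : ℝ, 0 < t → 0 < s → ‖F t s‖ ≤
      c * (Real.exp (-(w * t)) * Real.exp (-(w * s)) *
        ((1 + σ * t) ^ (-(1 / 2 : ℝ)) * (1 + |t - s|)⁻¹ +
          t ^ ((1 / 4 : ℝ) - 1) * s ^ ((1 / 4 : ℝ) - 1))) +
      Real.exp (-(w / 2 * t)) * Real.exp (-(w / 2 * s)) * Real.exp (-(w * m / 80))) :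
    ‖∫ t in Ioi (0 : ℝ), ∫ s in Ioi (0 : ℝ), F t s‖ ≤
      (c * (9 + 2 * Real.Gamma (1 / 4) ^ 2) + 1) * (1 + Real.log (1 / w)) / w *
        Real.sqrt (w / (w + σ)) := by
  have hw4 : 0 < w / 2 := by positivity
  set Γ := Real.Gamma (1 / 4) with hΓ
  obtain ⟨hg1, hg2⟩ := kh_gam (a := 1 / 4) (by norm_num) hw
  obtain ⟨ho1, ho2⟩ := kh_out hw hσ
  set X := Real.exp (-(w * m / 80)) with hX
  set l := 1 + Real.log (1 / w) with hl
  have hl1 : 1 ≤ l := by
    have : 0 ≤ Real.log (1 / w) := Real.log_nonneg (by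
      rw [le_div_iff₀ hw]
      linarith)
    linarith
  set Q := Real.sqrt (w / (w + σ)) with hQ
  set g := (1 / w) ^ (1 / 4 : ℝ) * Γ with hg
  have hgpos : 0 ≤ g := mul_nonneg (by positivity) (Real.Gamma_pos_of_pos (by norm_num)).le
  -- the inner bound
  have hin : ∀ t : ℝ, 0 < t → ‖∫ s in Ioi (0 : ℝ), F t s‖ ≤
      c * (3 * l * (Real.exp (-(w * t)) * (1 + σ * t) ^ (-(1 / 2 : ℝ))) +
        g * (t ^ ((1 / 4 : ℝ) - 1) * Real.exp (-(w * t)))) +
        X * (2 / w) * Real.exp (-(w / 2 * t)) := by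
    intro t ht
    obtain ⟨hl1', hl2⟩ := kh_log (t := t) hw hw2
    have e0 : Integrable (fun s : ℝ => c * ((Real.exp (-(w * t)) *
        (1 + σ * t) ^ (-(1 / 2 : ℝ))) * (Real.exp (-(w * s)) * (1 + |t - s|)⁻¹)) +
        c * ((t ^ ((1 / 4 : ℝ) - 1) * Real.exp (-(w * t))) *
          (s ^ ((1 / 4 : ℝ) - 1) * Real.exp (-(w * s))))) (volume.restrict (Ioi 0)) :=
      ((hl1'.const_mul _).const_mul _).add ((hg1.const_mul _).const_mul _)
    have e1 : Integrable (fun s : ℝ => c * ((Real.exp (-(w * t)) *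
        (1 + σ * t) ^ (-(1 / 2 : ℝ))) * (Real.exp (-(w * s)) * (1 + |t - s|)⁻¹)) +
        c * ((t ^ ((1 / 4 : ℝ) - 1) * Real.exp (-(w * t))) *
          (s ^ ((1 / 4 : ℝ) - 1) * Real.exp (-(w * s)))) +
        (X * Real.exp (-(w / 2 * t))) * Real.exp (-(w / 2 * s))) (volume.restrict (Ioi 0)) :=
      e0.add ((kh_exp hw4).1.const_mul _)
    refine (norm_integral_le_of_norm_le e1 ?_).trans ?_
    · refine (ae_restrict_mem measurableSet_Ioi).mono fun s hs => ?_
      refine (hF t s ht hs).trans (le_of_eq ?_)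
      ring
    · rw [integral_add e0 ((kh_exp hw4).1.const_mul _),
        integral_add ((hl1'.const_mul _).const_mul _) ((hg1.const_mul _).const_mul _),
        integral_const_mul, integral_const_mul, integral_const_mul, integral_const_mul,
        integral_const_mul, hg2, (kh_exp hw4).2]
      have h1 : c * (Real.exp (-(w * t)) * (1 + σ * t) ^ (-(1 / 2 : ℝ)) *
          ∫ s in Ioi (0 : ℝ), Real.exp (-(w * s)) * (1 + |t - s|)⁻¹) ≤
          c * (Real.exp (-(w * t)) * (1 + σ * t) ^ (-(1 / 2 : ℝ)) * (3 * l)) := by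
        refine mul_le_mul_of_nonneg_left (mul_le_mul_of_nonneg_left hl2 ?_) hc
        have := mul_nonneg hσ ht.le
        positivity
      have h2 : 1 / (w / 2) = 2 / w := by field_simp
      rw [h2]
      refine (add_le_add_left (add_le_add_left h1 _) _).trans (le_of_eq ?_)
      ring
  have e3 : Integrable (fun t : ℝ => c * (3 * l * (Real.exp (-(w * t)) *
      (1 + σ * t) ^ (-(1 / 2 : ℝ))) + g * (t ^ ((1 / 4 : ℝ) - 1) * Real.exp (-(w * t)))))
      (volume.restrict (Ioi 0)) :=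
    ((ho1.const_mul _).add (hg1.const_mul _)).const_mul _
  have e2 : Integrable (fun t : ℝ => c * (3 * l * (Real.exp (-(w * t)) *
      (1 + σ * t) ^ (-(1 / 2 : ℝ))) + g * (t ^ ((1 / 4 : ℝ) - 1) * Real.exp (-(w * t)))) +
      X * (2 / w) * Real.exp (-(w / 2 * t))) (volume.restrict (Ioi 0)) :=
    e3.add ((kh_exp hw4).1.const_mul _)
  refine (norm_integral_le_of_norm_le e2 ?_).trans ?_
  · exact (ae_restrict_mem measurableSet_Ioi).mono fun t ht => hin t ht
  · rw [integral_add e3 ((kh_exp hw4).1.const_mul _), integral_const_mul,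
      integral_add (ho1.const_mul _) (hg1.const_mul _), integral_const_mul, integral_const_mul,
      integral_const_mul, hg2, (kh_exp hw4).2]
    have hw' : 0 < 1 / w := by positivity
    -- numbers
    have hQ0 : 0 ≤ Q := Real.sqrt_nonneg _
    have hQ1 : w ≤ Q := by
      refine Real.le_sqrt_of_sq_le ?_
      rw [le_div_iff₀ (by linarith)]
      nlinarith
    have hQ2 : Real.sqrt w ≤ 2 * Q := by
      have h1 : 2 * Q = Real.sqrt (2 ^ 2 * (w / (w + σ))) := by
        rw [Real.sqrt_mul (by positivity), Real.sqrt_sq (by positivity)]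
      rw [h1]
      refine Real.sqrt_le_sqrt ?_
      have h2 : (2 : ℝ) ^ 2 * (w / (w + σ)) = 4 * w / (w + σ) := by ring
      rw [h2, le_div_iff₀ (by linarith)]
      nlinarith
    have hgg : g * g ≤ Γ ^ 2 * (2 * Q / w) := by
      have h1 : g * g = Γ ^ 2 * (Real.sqrt w / w) := by
        have h2 : (1 / w) ^ (1 / 4 : ℝ) * (1 / w) ^ (1 / 4 : ℝ) = Real.sqrt w / w := by
          rw [← Real.rpow_add hw']
          have h3 : (1 / 4 : ℝ) + 1 / 4 = 1 / 2 := by norm_num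
          rw [h3, ← Real.sqrt_eq_rpow, Real.sqrt_div (by norm_num), Real.sqrt_one]
          rw [div_eq_div_iff (Real.sqrt_pos.mpr hw).ne' hw.ne', one_mul,
            Real.mul_self_sqrt hw.le]
        calc g * g = Γ ^ 2 * ((1 / w) ^ (1 / 4 : ℝ) * (1 / w) ^ (1 / 4 : ℝ)) := by
              rw [hg]
              ring
          _ = _ := by rw [h2]
      rw [h1]
      refine mul_le_mul_of_nonneg_left ?_ (sq_nonneg _)
      exact div_le_div_of_nonneg_right hQ2 hw.le
    have hXb : X * (2 / w) * (1 / (w / 2)) ≤ Q / w := by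
      have h1 : 300 / 80 / w ≤ w * m / 80 := by
        have h2 : w * (300 / w ^ 2) ≤ w * m := mul_le_mul_of_nonneg_left hm hw.le
        have h3 : w * (300 / w ^ 2) = 300 / w := by field_simp
        rw [h3] at h2
        have h4 : (300 : ℝ) / 80 / w = 300 / w / 80 := by ring
        rw [h4]
        linarith
      set y := w * m / 80 with hy
      have hy0 : 0 < y := lt_of_lt_of_le (by positivity) h1
      have h5 : Real.exp (-y) ≤ 2 / y ^ 2 := by
        have h6 : y ^ 2 / 2 ≤ Real.exp y := by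
          have := Real.quadratic_le_exp_of_nonneg hy0.le
          linarith
        rw [Real.exp_neg, le_div_iff₀ (by positivity)]
        rw [inv_mul_le_iff₀ (Real.exp_pos _)]
        linarith
      have h7 : (3.75 / w) ^ 2 ≤ y ^ 2 := by
        refine pow_le_pow_left₀ (by positivity) ?_ 2
        refine le_trans (le_of_eq ?_) h1
        norm_num
      have h8 : 2 / y ^ 2 ≤ 2 / (3.75 / w) ^ 2 :=
        div_le_div_of_nonneg_left (by norm_num) (by positivity) h7
      have h9 : X ≤ 2 / (3.75 / w) ^ 2 := h5.trans h8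
      have h10 : X * (2 / w) * (1 / (w / 2)) ≤ 2 / (3.75 / w) ^ 2 * (2 / w) * (1 / (w / 2)) := by
        refine mul_le_mul_of_nonneg_right (mul_le_mul_of_nonneg_right h9 ?_) ?_ <;> positivity
      have h11 : 2 / (3.75 / w) ^ 2 * (2 / w) * (1 / (w / 2)) = 8 / 3.75 ^ 2 := by
        field_simp
        norm_num
      have h12 : (1 : ℝ) ≤ Q / w := by
        rw [le_div_iff₀ hw]
        linarith
      have h13 : (8 : ℝ) / 3.75 ^ 2 ≤ 1 := by norm_num
      linarith
    have h14 : 3 * l * ∫ t in Ioi (0 : ℝ), Real.exp (-(w * t)) *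
        (1 + σ * t) ^ (-(1 / 2 : ℝ)) ≤ 3 * l * (3 / w * Q) :=
      mul_le_mul_of_nonneg_left ho2 (by linarith)
    have h15 : c * (3 * l * (∫ t in Ioi (0 : ℝ), Real.exp (-(w * t)) *
        (1 + σ * t) ^ (-(1 / 2 : ℝ))) + g * ((1 / w) ^ (1 / 4 : ℝ) * Real.Gamma (1 / 4))) ≤
        c * (3 * l * (3 / w * Q) + Γ ^ 2 * (2 * Q / w)) :=
      mul_le_mul_of_nonneg_left (add_le_add h14 hgg) hc
    have hQw : 0 ≤ Q / w := by positivity
    have h16 : Q / w ≤ l * (Q / w) := le_mul_of_one_le_left hQw hl1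
    have h17 : c * Γ ^ 2 * 2 * (Q / w) ≤ c * Γ ^ 2 * 2 * (l * (Q / w)) :=
      mul_le_mul_of_nonneg_left h16 (by positivity)
    have h18 : (c * (9 + 2 * Γ ^ 2) + 1) * l / w * Q =
        9 * c * (l * (Q / w)) + c * Γ ^ 2 * 2 * (l * (Q / w)) + l * (Q / w) := by
      ring
    have h19 : c * (3 * l * (3 / w * Q) + Γ ^ 2 * (2 * Q / w)) =
        9 * c * (l * (Q / w)) + c * Γ ^ 2 * 2 * (Q / w) := by
      field_simp
      ring
    rw [h18]
    rw [h19] at h15
    linarith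

open Pool.Agent.LE.QF Pool.Agent.LE.QD Pool.Agent.LE.IR Pool.Agent.BED

/-- the exponential factor -/
noncomputable def ef {M : ℕ} [NeZero M] (a : ℂ) (x : ZMod M) : ℂ :=
  Complex.exp (Complex.I * ((2 * (a * ZMod.stdAddChar x).re : ℝ) : ℂ))

theorem ef_norm {M : ℕ} [NeZero M] (a : ℂ) (x : ZMod M) : ‖ef a x‖ = 1 := by
  rw [ef, mul_comm, Complex.norm_exp_ofReal_mul_I]

theorem jc_le_one {M : ℕ} [NeZero M] (a : ℂ) : ‖jc M a‖ ≤ 1 := by
  have hM : (0 : ℝ) < M := by exact_mod_cast NeZero.pos M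
  have h1 : jc M a = (∑ k : ZMod M, ef a k) / (M : ℂ) := rfl
  rw [h1, norm_div, Complex.norm_natCast, div_le_one hM]
  refine (norm_sum_le _ _).trans ?_
  simp [ef_norm, ZMod.card]

theorem ef_sum {d M : ℕ} [NeZero M] (a : Fin d → ℂ) :
    (∑ k : Fin d → ZMod M, ∏ j, ef (a j) (k j)) / (M : ℂ) ^ d = ∏ j, jc M (a j) := by
  have h1 : (∏ j, ∑ x : ZMod M, ef (a j) x) = ∑ k : Fin d → ZMod M, ∏ j, ef (a j) (k j) := by
    rw [Finset.prod_univ_sum, Fintype.piFinset_univ]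
  rw [← h1]
  have h2 : ∀ j, jc M (a j) = (∑ x : ZMod M, ef (a j) x) / (M : ℂ) := fun j => rfl
  simp only [h2]
  rw [Finset.prod_div_distrib]
  simp

theorem ch_re {M : ℕ} [NeZero M] (x : ZMod M) :
    (ZMod.stdAddChar x : ℂ) =
      Complex.exp (((2 * Real.pi * (x.valMinAbs : ℝ) / M : ℝ) : ℂ) * Complex.I) := by
  have h := ZMod.stdAddChar_coe (N := M) x.valMinAbs
  rw [ZMod.coe_valMinAbs] at h
  rw [h]
  congr 1
  push_cast
  ring

theorem es_eq {d M : ℕ} [NeZero M] (k : Tor d M) :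
    es k = ∑ j, 2 * (ZMod.stdAddChar (k j) : ℂ).re := by
  have h1 : ∀ j, (ZMod.stdAddChar (k j) : ℂ).re =
      Real.cos (2 * Real.pi * ((k j).valMinAbs : ℝ) / M) := by
    intro j
    rw [ch_re, Complex.exp_ofReal_mul_I_re]
  simp only [h1, es, ds, mul_sub, mul_one, Finset.sum_sub_distrib]
  simp
  ring

/-- the squares of the norms -/
theorem nrm_sin (t s : ℝ) (θ : ℝ) :
    ‖(-(t : ℂ) + (s : ℂ) * Complex.exp (((2 * θ : ℝ) : ℂ) * Complex.I))‖ ^ 2 =
      (t - s) ^ 2 + 4 * t * s * |Real.sin θ| ^ 2 := by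
  rw [← Complex.normSq_eq_norm_sq, Complex.normSq_apply, sq_abs]
  have h1 : (-(t : ℂ) + (s : ℂ) * Complex.exp (((2 * θ : ℝ) : ℂ) * Complex.I)).re =
      -t + s * Real.cos (2 * θ) := by
    rw [Complex.add_re, Complex.neg_re, Complex.ofReal_re, Complex.re_ofReal_mul,
      Complex.exp_ofReal_mul_I_re]
  have h2 : (-(t : ℂ) + (s : ℂ) * Complex.exp (((2 * θ : ℝ) : ℂ) * Complex.I)).im =
      s * Real.sin (2 * θ) := by
    rw [Complex.add_im, Complex.neg_im, Complex.ofReal_im, Complex.im_ofReal_mul,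
      Complex.exp_ofReal_mul_I_im, neg_zero, zero_add]
  rw [h1, h2]
  have h3 := Real.sin_sq_add_cos_sq (2 * θ)
  have h4 : Real.cos (2 * θ) = 1 - 2 * Real.sin θ ^ 2 := by
    rw [Real.cos_two_mul, Real.sin_sq]
    ring
  have h5 : (-t + s * Real.cos (2 * θ)) * (-t + s * Real.cos (2 * θ)) +
      s * Real.sin (2 * θ) * (s * Real.sin (2 * θ)) =
      t ^ 2 - 2 * t * s * Real.cos (2 * θ) +
        s ^ 2 * (Real.sin (2 * θ) ^ 2 + Real.cos (2 * θ) ^ 2) := by ring
  rw [h5, h3, h4]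
  ring

theorem nrm_cos (t s : ℝ) (θ : ℝ) :
    ‖(-(t : ℂ) - (s : ℂ) * Complex.exp (((2 * θ : ℝ) : ℂ) * Complex.I))‖ ^ 2 =
      (t - s) ^ 2 + 4 * t * s * |Real.cos θ| ^ 2 := by
  rw [← Complex.normSq_eq_norm_sq, Complex.normSq_apply, sq_abs]
  have h1 : (-(t : ℂ) - (s : ℂ) * Complex.exp (((2 * θ : ℝ) : ℂ) * Complex.I)).re =
      -t - s * Real.cos (2 * θ) := by
    rw [Complex.sub_re, Complex.neg_re, Complex.ofReal_re, Complex.re_ofReal_mul,
      Complex.exp_ofReal_mul_I_re]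
  have h2 : (-(t : ℂ) - (s : ℂ) * Complex.exp (((2 * θ : ℝ) : ℂ) * Complex.I)).im =
      -(s * Real.sin (2 * θ)) := by
    rw [Complex.sub_im, Complex.neg_im, Complex.ofReal_im, Complex.im_ofReal_mul,
      Complex.exp_ofReal_mul_I_im, neg_zero, zero_sub]
  rw [h1, h2]
  have h3 := Real.sin_sq_add_cos_sq (2 * θ)
  have h4 : Real.cos (2 * θ) = 2 * Real.cos θ ^ 2 - 1 := Real.cos_two_mul θ
  have h5 : (-t - s * Real.cos (2 * θ)) * (-t - s * Real.cos (2 * θ)) +
      -(s * Real.sin (2 * θ)) * -(s * Real.sin (2 * θ)) =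
      t ^ 2 + 2 * t * s * Real.cos (2 * θ) +
        s ^ 2 * (Real.sin (2 * θ) ^ 2 + Real.cos (2 * θ) ^ 2) := by ring
  rw [h5, h3, h4]
  ring

/-- the product of the Bessel functions -/
theorem kh_prod {C : ℝ} (hC : 1 ≤ C) {d M : ℕ} [NeZero M] (hd : 3 ≤ d)
    (hJ : ∀ a : ℂ, ‖a‖ ≤ M / 40 → ‖jc M a‖ ≤ C * (1 + ‖a‖) ^ (-(1 / 2 : ℝ)))
    (a : Fin d → ℂ) (σ : Fin d → ℝ) (t s : ℝ) (ht : 0 < t) (hs : 0 < s)
    (hσ : ∀ j, 0 ≤ σ j ∧ σ j ≤ 1)
    (ha : ∀ j, ‖a j‖ ^ 2 = (t - s) ^ 2 + 4 * t * s * σ j ^ 2) (i : Fin d)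
    (hts : t + s ≤ M / 40) :
    ∏ j, ‖jc M (a j)‖ ≤ C ^ 3 * ((1 + |t - s|)⁻¹ * (1 + ‖a i‖) ^ (-(1 / 2 : ℝ))) := by
  have hC0 : 0 ≤ C := by linarith
  have hpos := mul_pos ht hs
  have habs := abs_nonneg (t - s)
  have hx : 0 < 1 + |t - s| := by linarith
  have h1 : ∀ j, |t - s| ≤ ‖a j‖ := fun j => by
    refine abs_le_of_sq_le_sq ?_ (norm_nonneg _)
    rw [ha j]
    have := sq_nonneg (σ j)
    have h2 : 0 ≤ 4 * t * s * σ j ^ 2 := by positivity
    linarith
  have h2 : ∀ j, ‖a j‖ ≤ M / 40 := fun j => by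
    refine le_trans ?_ hts
    refine abs_le_of_sq_le_sq' ?_ (by linarith) |>.2
    rw [ha j]
    have h3 : σ j ^ 2 ≤ 1 := by
      have := hσ j
      nlinarith
    have h4 : 4 * t * s * σ j ^ 2 ≤ 4 * t * s * 1 := mul_le_mul_of_nonneg_left h3 (by positivity)
    nlinarith
  set b := C * (1 + |t - s|) ^ (-(1 / 2 : ℝ)) with hb
  have hb0 : 0 ≤ b := by positivity
  have h3 : ∀ j, ‖jc M (a j)‖ ≤ b := fun j => by
    refine (hJ _ (h2 j)).trans (mul_le_mul_of_nonneg_left ?_ hC0)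
    exact Real.rpow_le_rpow_of_nonpos hx (by linarith [h1 j]) (by norm_num)
  set b' := min 1 b with hb'
  have hb'0 : 0 ≤ b' := le_min zero_le_one hb0
  have h4 : ∀ j, ‖jc M (a j)‖ ≤ b' := fun j => le_min (jc_le_one _) (h3 j)
  have h5 : ∏ j ∈ Finset.univ.erase i, ‖jc M (a j)‖ ≤ b' ^ (d - 1) := by
    refine (Finset.prod_le_prod (fun j _ => norm_nonneg _) fun j _ => h4 j).trans (le_of_eq ?_)
    rw [Finset.prod_const, Finset.card_erase_of_mem (Finset.mem_univ i), Finset.card_univ,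
      Fintype.card_fin]
  have h6 : b' ^ (d - 1) ≤ b ^ 2 :=
    (pow_le_pow_of_le_one hb'0 (min_le_left _ _) (by omega : 2 ≤ d - 1)).trans
      (pow_le_pow_left₀ hb'0 (min_le_right _ _) 2)
  have h7 : b ^ 2 = C ^ 2 * (1 + |t - s|)⁻¹ := by
    rw [hb, mul_pow, ← Real.rpow_natCast ((1 + |t - s|) ^ (-(1 / 2 : ℝ))) 2,
      ← Real.rpow_mul hx.le]
    have e1 : (-(1 / 2 : ℝ)) * ((2 : ℕ) : ℝ) = -1 := by norm_num
    rw [e1, Real.rpow_neg_one]
  rw [← Finset.mul_prod_erase Finset.univ _ (Finset.mem_univ i)]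
  have h8 : ∏ j ∈ Finset.univ.erase i, ‖jc M (a j)‖ ≤ C ^ 2 * (1 + |t - s|)⁻¹ := by
    rw [← h7]
    exact h5.trans h6
  calc ‖jc M (a i)‖ * ∏ j ∈ Finset.univ.erase i, ‖jc M (a j)‖ ≤
      (C * (1 + ‖a i‖) ^ (-(1 / 2 : ℝ))) * (C ^ 2 * (1 + |t - s|)⁻¹) :=
        mul_le_mul (hJ _ (h2 i)) h8 (Finset.prod_nonneg fun j _ => norm_nonneg _) (by positivity)
    _ = _ := by ring

/-- both cases -/
theorem kh_fin {C : ℝ} (hC : 1 ≤ C) {d M : ℕ} [NeZero M] (hd : 3 ≤ d)
    (hJ : ∀ a : ℂ, ‖a‖ ≤ M / 40 → ‖jc M a‖ ≤ C * (1 + ‖a‖) ^ (-(1 / 2 : ℝ)))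
    (a : ℝ → ℝ → Fin d → ℂ) (σ : Fin d → ℝ) (hσ : ∀ j, 0 ≤ σ j ∧ σ j ≤ 1)
    (ha : ∀ t s j, ‖a t s j‖ ^ 2 = (t - s) ^ 2 + 4 * t * s * σ j ^ 2) (i : Fin d)
    (F : ℝ → ℝ → ℂ) (w : ℝ) (hw : 0 < w) (hw2 : w ≤ 1 / 2) (hm : 300 / w ^ 2 ≤ M)
    (hF : ∀ t s : ℝ, 0 < t → 0 < s → ‖F t s‖ =
      Real.exp (-(w * t)) * Real.exp (-(w * s)) * ∏ j, ‖jc M (a t s j)‖) :
    ‖∫ t in Ioi (0 : ℝ), ∫ s in Ioi (0 : ℝ), F t s‖ ≤
      (C ^ 3 * (9 + 2 * Real.Gamma (1 / 4) ^ 2) + 1) * (1 + Real.log (1 / w)) / w *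
        Real.sqrt (w / (w + σ i)) := by
  refine kh_main F hw hw2 (hσ i).1 (hσ i).2 (by positivity) hm fun t s ht hs => ?_
  rw [hF t s ht hs]
  have hE : 0 ≤ Real.exp (-(w / 2 * t)) * Real.exp (-(w / 2 * s)) *
      Real.exp (-(w * (M : ℝ) / 80)) := by positivity
  have hσi := (hσ i).1
  have hP : 0 ≤ (1 + σ i * t) ^ (-(1 / 2 : ℝ)) * (1 + |t - s|)⁻¹ +
          t ^ ((1 / 4 : ℝ) - 1) * s ^ ((1 / 4 : ℝ) - 1) := by
    have := mul_nonneg hσi ht.le
    positivity
  rcases le_or_gt (t + s) (M / 40 : ℝ) with h | h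
  · have h1 := kh_prod hC hd hJ (a t s) σ t s ht hs hσ (ha t s) i h
    have h2 := kh_pw ht hs hσi (norm_nonneg (a t s i)) (ha t s i)
    have h3 : ∏ j, ‖jc M (a t s j)‖ ≤ C ^ 3 * ((1 + σ i * t) ^ (-(1 / 2 : ℝ)) *
        (1 + |t - s|)⁻¹ + t ^ ((1 / 4 : ℝ) - 1) * s ^ ((1 / 4 : ℝ) - 1)) :=
      h1.trans (mul_le_mul_of_nonneg_left h2 (by positivity))
    have h4 : Real.exp (-(w * t)) * Real.exp (-(w * s)) * ∏ j, ‖jc M (a t s j)‖ ≤
        Real.exp (-(w * t)) * Real.exp (-(w * s)) * (C ^ 3 * ((1 + σ i * t) ^ (-(1 / 2 : ℝ)) *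
        (1 + |t - s|)⁻¹ + t ^ ((1 / 4 : ℝ) - 1) * s ^ ((1 / 4 : ℝ) - 1))) :=
      mul_le_mul_of_nonneg_left h3 (by positivity)
    refine h4.trans ?_
    have h5 : Real.exp (-(w * t)) * Real.exp (-(w * s)) * (C ^ 3 * ((1 + σ i * t) ^
        (-(1 / 2 : ℝ)) * (1 + |t - s|)⁻¹ + t ^ ((1 / 4 : ℝ) - 1) * s ^ ((1 / 4 : ℝ) - 1))) =
        C ^ 3 * (Real.exp (-(w * t)) * Real.exp (-(w * s)) * ((1 + σ i * t) ^
        (-(1 / 2 : ℝ)) * (1 + |t - s|)⁻¹ + t ^ ((1 / 4 : ℝ) - 1) * s ^ ((1 / 4 : ℝ) - 1))) := by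
      ring
    rw [h5]
    linarith
  · have h1 : ∏ j, ‖jc M (a t s j)‖ ≤ 1 :=
      Finset.prod_le_one (fun j _ => norm_nonneg _) fun j _ => jc_le_one _
    have h2 : Real.exp (-(w * t)) * Real.exp (-(w * s)) * ∏ j, ‖jc M (a t s j)‖ ≤
        Real.exp (-(w * t)) * Real.exp (-(w * s)) * 1 :=
      mul_le_mul_of_nonneg_left h1 (by positivity)
    refine h2.trans ?_
    have h3 : Real.exp (-(w * t)) * Real.exp (-(w * s)) * 1 ≤
        Real.exp (-(w / 2 * t)) * Real.exp (-(w / 2 * s)) * Real.exp (-(w * (M : ℝ) / 80)) := by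
      rw [mul_one, ← Real.exp_add, ← Real.exp_add, ← Real.exp_add]
      refine Real.exp_le_exp.mpr ?_
      have h4 : w * (M / 40) ≤ w * (t + s) := mul_le_mul_of_nonneg_left h.le hw.le
      linarith
    refine h3.trans ?_
    have h5 : 0 ≤ C ^ 3 * (Real.exp (-(w * t)) * Real.exp (-(w * s)) * ((1 + σ i * t) ^
        (-(1 / 2 : ℝ)) * (1 + |t - s|)⁻¹ + t ^ ((1 / 4 : ℝ) - 1) * s ^ ((1 / 4 : ℝ) - 1))) := by
      positivity
    linarith

theorem khb (hJ : JcbStmt) : KhbStmt := by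
  obtain ⟨C, hC, hJ⟩ := hJ
  intro d hd
  have hΓ : 0 ≤ Real.Gamma (1 / 4) ^ 2 := sq_nonneg _
  have hC3 : 0 ≤ C ^ 3 * (9 + 2 * Real.Gamma (1 / 4) ^ 2) := by positivity
  set K := C ^ 3 * (9 + 2 * Real.Gamma (1 / 4) ^ 2) + 1 with hK
  refine ⟨K + 300, by linarith, ?_⟩
  intro M _ z p i hz hz2 hM
  set w := z.im with hw
  have hM0 : (0 : ℝ) < M := by exact_mod_cast NeZero.pos M
  have hMc : (M : ℂ) ^ d ≠ 0 := pow_ne_zero _ (by exact_mod_cast (NeZero.pos M).ne')
  have hm : 300 / w ^ 2 ≤ (M : ℝ) := by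
    refine le_trans ?_ hM
    exact div_le_div_of_nonneg_right (by linarith) (by positivity)
  have hlog : 0 ≤ Real.log (1 / w) := Real.log_nonneg (by
    rw [le_div_iff₀ hz]
    linarith)
  have hfin : ∀ σ : ℝ, K * (1 + Real.log (1 / w)) / w * Real.sqrt (w / (w + σ)) ≤
      (K + 300) * (1 + Real.log (1 / w)) / w * Real.sqrt (w / (w + σ)) := by
    intro σ
    refine mul_le_mul_of_nonneg_right ?_ (Real.sqrt_nonneg _)
    refine div_le_div_of_nonneg_right ?_ hz.le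
    exact mul_le_mul_of_nonneg_right (by linarith) (by linarith)
  have hθ : ∀ j, (ZMod.stdAddChar (p j) : ℂ) = Complex.exp (((2 * (Real.pi *
      ((p j).valMinAbs : ℝ) / M) : ℝ) : ℂ) * Complex.I) := by
    intro j
    rw [ch_re]
    congr 2
    push_cast
    ring
  constructor
  · -- kh
    set A : Tor d M → ℂ := fun k => -(Complex.I * ((es k : ℂ) - z)) with hA
    set B : Tor d M → ℂ := fun k => Complex.I * ((es (k + p) : ℂ) - (starRingEnd ℂ) z) with hB
    have hAre : ∀ k, (A k).re = -w := fun k => by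
      simp [hA, hw]
    have hBre : ∀ k, (B k).re = -w := fun k => by
      simp [hB, hw]
    set F : ℝ → ℝ → ℂ := fun t s =>
      (∑ k, Complex.exp (A k * t) * Complex.exp (B k * s)) / (M : ℂ) ^ d with hF
    have h1 : kh z p = ∫ t in Ioi (0 : ℝ), ∫ s in Ioi (0 : ℝ), F t s := by
      have h2 := kh_two A B (fun k => by rw [hAre]; linarith) fun k => by rw [hBre]; linarith
      simp only [hF, integral_div]
      rw [← h2, kh]
      congr 1
      refine Finset.sum_congr rfl fun k _ => ?_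
      rw [map_inv₀, map_sub, Complex.conj_ofReal, ← mul_inv, ← mul_inv]
      congr 1
      simp only [hA, hB]
      linear_combination (((es k : ℂ) - z) * ((es (k + p) : ℂ) - (starRingEnd ℂ) z)) *
        Complex.I_mul_I
    rw [h1]
    refine (kh_fin hC hd (hJ M) (fun t s j => -(t : ℂ) + (s : ℂ) * ZMod.stdAddChar (p j))
      (fun j => |Real.sin (Real.pi * ((p j).valMinAbs : ℝ) / M)|)
      (fun j => ⟨abs_nonneg _, Real.abs_sin_le_one _⟩) (fun t s j => ?_) i F w hz hz2 hm ?_).trans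
        (hfin _)
    · rw [hθ j, nrm_sin]
    · intro t s _ _
      have h3 : F t s = Complex.exp (Complex.I * z * t - Complex.I * (starRingEnd ℂ) z * s) *
          ∏ j, jc M (-(t : ℂ) + (s : ℂ) * ZMod.stdAddChar (p j)) := by
        rw [← ef_sum, hF]
        simp only []
        rw [← mul_div_assoc, Finset.mul_sum]
        congr 1
        refine Finset.sum_congr rfl fun k _ => ?_
        simp only [ef]
        rw [← Complex.exp_sum, ← Complex.exp_add, ← Complex.exp_add, ← Finset.mul_sum]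
        congr 1
        have h4 : (∑ j, ((2 * ((-(t : ℂ) + (s : ℂ) * ZMod.stdAddChar (p j)) *
            ZMod.stdAddChar (k j)).re : ℝ) : ℂ)) = ((-t * es k + s * es (k + p) : ℝ) : ℂ) := by
          rw [← Complex.ofReal_sum]
          congr 1
          rw [es_eq, es_eq, Finset.mul_sum, Finset.mul_sum, ← Finset.sum_add_distrib]
          refine Finset.sum_congr rfl fun j _ => ?_
          rw [Pi.add_apply, AddChar.map_add_eq_mul]
          simp only [Complex.mul_re, Complex.add_re, Complex.neg_re, Complex.ofReal_re,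
            Complex.add_im, Complex.neg_im, Complex.ofReal_im, Complex.mul_im]
          ring
        rw [h4]
        simp only [hA, hB]
        push_cast
        ring
      rw [h3, norm_mul, norm_prod, Complex.norm_exp]
      congr 1
      rw [← Real.exp_add]
      congr 1
      simp [hw]
      ring
  · -- bh
    set A : Tor d M → ℂ := fun k => -(Complex.I * ((es k : ℂ) - z)) with hA
    set B : Tor d M → ℂ := fun k => -(Complex.I * ((es (p - k) : ℂ) - z)) with hB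
    have hAre : ∀ k, (A k).re = -w := fun k => by
      simp [hA, hw]
    have hBre : ∀ k, (B k).re = -w := fun k => by
      simp [hB, hw]
    set F : ℝ → ℝ → ℂ := fun t s =>
      (∑ k, Complex.exp (A k * t) * Complex.exp (B k * s)) / (M : ℂ) ^ d with hF
    have h1 : -(bh z p) = ∫ t in Ioi (0 : ℝ), ∫ s in Ioi (0 : ℝ), F t s := by
      have h2 := kh_two A B (fun k => by rw [hAre]; linarith) fun k => by rw [hBre]; linarith
      simp only [hF, integral_div]
      rw [← h2, bh, ← neg_div]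
      congr 1
      rw [← Finset.sum_neg_distrib]
      refine Finset.sum_congr rfl fun k _ => ?_
      rw [← mul_inv, ← mul_inv, ← inv_neg]
      congr 1
      simp only [hA, hB]
      linear_combination (-((es k : ℂ) - z) * ((es (p - k) : ℂ) - z)) * Complex.I_mul_I
    rw [← norm_neg, h1]
    refine (kh_fin hC hd (hJ M)
      (fun t s j => -(t : ℂ) - (s : ℂ) * (starRingEnd ℂ) (ZMod.stdAddChar (p j)))
      (fun j => |Real.cos (Real.pi * ((p j).valMinAbs : ℝ) / M)|)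
      (fun j => ⟨abs_nonneg _, Real.abs_cos_le_one _⟩) (fun t s j => ?_) i F w hz hz2 hm ?_).trans
        (hfin _)
    · have h5 : -(t : ℂ) - (s : ℂ) * (starRingEnd ℂ) (ZMod.stdAddChar (p j)) =
          (starRingEnd ℂ) (-(t : ℂ) - (s : ℂ) * ZMod.stdAddChar (p j)) := by
        rw [map_sub, map_neg, map_mul, Complex.conj_ofReal, Complex.conj_ofReal]
      rw [h5, RCLike.norm_conj, hθ j, nrm_cos]
    · intro t s _ _
      have h3 : F t s = Complex.exp (Complex.I * z * t + Complex.I * z * s) *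
          ∏ j, jc M (-(t : ℂ) - (s : ℂ) * (starRingEnd ℂ) (ZMod.stdAddChar (p j))) := by
        rw [← ef_sum, hF]
        simp only []
        rw [← mul_div_assoc, Finset.mul_sum]
        congr 1
        refine Finset.sum_congr rfl fun k _ => ?_
        simp only [ef]
        rw [← Complex.exp_sum, ← Complex.exp_add, ← Complex.exp_add, ← Finset.mul_sum]
        congr 1
        have h4 : (∑ j, ((2 * ((-(t : ℂ) - (s : ℂ) * (starRingEnd ℂ) (ZMod.stdAddChar (p j))) *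
            ZMod.stdAddChar (k j)).re : ℝ) : ℂ)) = ((-t * es k - s * es (p - k) : ℝ) : ℂ) := by
          rw [← Complex.ofReal_sum]
          congr 1
          rw [es_eq, es_eq, Finset.mul_sum, Finset.mul_sum, ← Finset.sum_sub_distrib]
          refine Finset.sum_congr rfl fun j _ => ?_
          rw [Pi.sub_apply, sub_eq_add_neg (p j) (k j), AddChar.map_add_eq_mul,
            AddChar.map_neg_eq_conj]
          simp only [Complex.mul_re, Complex.sub_re, Complex.neg_re, Complex.ofReal_re,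
            Complex.sub_im, Complex.neg_im, Complex.ofReal_im, Complex.mul_im, Complex.conj_re,
            Complex.conj_im]
          ring
        rw [h4]
        simp only [hA, hB]
        push_cast
        ring
      rw [h3, norm_mul, norm_prod, Complex.norm_exp]
      congr 1
      rw [← Real.exp_add]
      congr 1
      simp [hw]

end Pool.Agent.LE.QF.H8
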