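import Pool.Agent.LE.StmtsQF

set_option autoImplicit false

open MeasureTheory ProbabilityTheory Function Filter

open scoped ENNReal BigOperators Topology NNReal ComplexOrder Matrix

noncomputable section

namespace Pool.Agent.LE.QF.H8

open Pool.Agent.LE.QF

section

variable {ι : Type} [Fintype ι] [DecidableEq ι] {E : Type} [NormedAddCommGroup E]
  [NormedSpace ℝ E]

theorem hj_cast {F F' : ℝ × (ι → ℝ) → E} {q : ℝ × (ι → ℝ)} {v v' : E} {g g' : ι → E} {l l' : E}
    (h : HJ F q v g l) (hF : F = F') (hv : v = v') (hg : g = g') (hl : l = l') :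
    HJ F' q v' g' l' := by
  subst hF hv hg hl
  exact h

end

section

variable {X : Type} [Fintype X] [DecidableEq X]

theorem gd_apply (G : Matrix X X ℂ) (φ : X → ℂ) (a b : X) :
    GD G φ a b = ∑ c, G a c * φ c * G c b := by
  rw [GD, Matrix.mul_apply]
  refine Finset.sum_congr rfl fun c _ => ?_
  rw [Matrix.mul_diagonal]

theorem jtb_dl (hJ : JalStmt) {q : ℝ × (X → ℝ)} {F : ℝ × (X → ℝ) → Matrix X X ℝ}
    {v l : Matrix X X ℝ} {g : X → Matrix X X ℝ} (h : HM F q v g l) :
    HM (fun r => Dl (F r)) q (Dl v) (fun c => Dl (g c)) (Dl l) := by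
  obtain ⟨hc, _, hadd, _, _, hsum, _, _⟩ := hJ X ℝ q
  intro a b
  by_cases hab : a = b
  · have h1 := hsum X Finset.univ (fun y r => F r a y) (fun y => v a y) (fun y => l a y)
      (fun y c => g c a y) fun y _ => h a y
    have h2 := (hadd _ _ _ _ _ _ _ _ h1 (h a b)).2.1
    refine hj_cast h2 ?_ ?_ ?_ ?_
    · funext r
      simp [Dl, hab]
    · simp [Dl, hab]
    · funext c
      simp [Dl, hab]
    · simp [Dl, hab]
  · have h2 := (hadd _ _ _ _ _ _ _ _ (hc 0) (h a b)).2.1
    refine hj_cast h2 ?_ ?_ ?_ ?_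
    · funext r
      simp [Dl, hab]
    · simp [Dl, hab]
    · funext c
      simp [Dl, hab]
    · simp [Dl, hab]

theorem hj_re (hJ : JalStmt) {q : ℝ × (X → ℝ)} {F : ℝ × (X → ℝ) → ℂ} {v l : ℂ} {g : X → ℂ}
    (h : HJ F q v g l) : HJ (fun r => (F r).re) q v.re (fun c => (g c).re) l.re := by
  have h1 := ((hJ X ℂ q).2.2.2.1 F v l g h).2.1
  exact h1

theorem jtb (hJ : JalStmt) : JtbStmt := by
  intro X _ _ q Gm ta G m τ μ hH hμ
  obtain ⟨hc, _, hadd, hconj, _, _, _, _⟩ := hJ X ℂ q
  obtain ⟨_, _, haddR, _, hofR, _, htR, _⟩ := hJ X ℝ q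
  obtain ⟨_, _, _, _, hofC, _, _, _⟩ := hJ X ℂ q
  have hG := hH.hG
  have hs := hH.hs
  obtain ⟨ht1, ht2, ht3⟩ := hH.ht
  have hB : HM (fun r => BB (Gm r)) q (BB G) (dB G) (BB G * BB G + EB G μ) := by
    intro a b
    refine hj_cast (hadd _ _ _ _ _ _ _ _ (hG a b) (hG a b)).2.2 ?_ ?_ ?_ ?_
    · funext r
      simp only [BB]
      ring
    · simp only [BB]
      ring
    · funext c
      simp only [dB, gG]
      ring
    · rw [hμ]
      simp only [Matrix.add_apply, Matrix.mul_apply, EB, BB, gG]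
      have : ∀ c, -(G a c * G c b) * -(G a c * G c b) = G a c ^ 2 * G c b ^ 2 := fun c => by ring
      simp only [this]
      ring
  have hK : HM (fun r => KK (Gm r)) q (KK G) (dK G) (KK G * KK G + EK G μ) := by
    intro a b
    have h1 := (hconj _ _ _ _ (hG a b)).1
    have h2 := (hadd _ _ _ _ _ _ _ _ h1 (hG a b)).2.2
    have hn : ∀ z : ℂ, RCLike.re ((starRingEnd ℂ) z * z) = ‖z‖ ^ 2 := by
      intro z
      rw [← Complex.normSq_eq_norm_sq, mul_comm, Complex.mul_conj]
      exact Complex.ofReal_re _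
    have h4 := hj_re hJ h2
    refine hj_cast h4 ?_ ?_ ?_ ?_
    · funext r
      exact hn _
    · exact hn _
    · funext c
      simp only [dK, gG, map_neg, map_mul]
      simp only [Complex.neg_re, Complex.mul_re, Complex.add_re, Complex.conj_re, Complex.conj_im,
        Complex.mul_im, Complex.neg_im]
      ring
    · rw [hμ]
      simp only [Matrix.add_apply, Matrix.mul_apply, EK, KK, gG, Complex.add_re]
      have e1 : (∑ c, (starRingEnd ℂ) (-(G a c * G c b)) * -(G a c * G c b)).re =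
          ∑ c, ‖G a c‖ ^ 2 * ‖G c b‖ ^ 2 := by
        rw [Complex.re_sum]
        refine Finset.sum_congr rfl fun c _ => ?_
        have := hn (-(G a c * G c b))
        rw [norm_neg, norm_mul, mul_pow] at this
        exact this
      rw [e1]
      simp only [Complex.mul_re, Complex.conj_re, Complex.conj_im]
      ring
  have hta : HJ (fun r : ℝ × (X → ℝ) => ta r.1) q τ (fun _ => 0) (-1) := by
    refine hj_cast (htR ta ht1) rfl ht2 rfl ht3
  refine ⟨hB, hK, ?_, ?_, ?_⟩
  · intro a
    refine hj_cast (hadd _ _ _ _ _ _ _ _ (hG a a) (hc m)).2.1 rfl ?_ ?_ ?_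
    · rw [hμ]
    · funext c
      simp only [gG, BB, sub_zero]
      rw [hs c a]
      ring
    · rw [sub_zero, gd_apply, hμ]
      simp only [Matrix.mulVec, dotProduct, BB]
      refine Finset.sum_congr rfl fun c _ => ?_
      rw [hs c a]
      ring
  · have h5 := (hofC (fun r : ℝ × (X → ℝ) => ta r.1) τ (-1) (fun _ => 0) hta).1
    intro a b
    refine hj_cast (hadd _ _ _ _ _ _ _ _ h5 (hB a b)).2.2 ?_ ?_ ?_ ?_
    · funext r
      simp
    · simp
    · funext c
      simp
    · simp
      ring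
  · intro a b
    refine hj_cast (haddR _ _ _ _ _ _ _ _ hta (jtb_dl hJ hK a b)).2.2 ?_ ?_ ?_ ?_
    · funext r
      simp
    · simp
    · funext c
      simp
    · simp
      ring

end

end Pool.Agent.LE.QF.H8
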